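import Mathlib

/-!
# SR-D11: common points of two algebras of finite type over a domain
-/

set_option autoImplicit false

open TensorProduct

namespace Pool.Agent.Helper54.SR

private theorem h51_exists_point {k : Type} [Field k] [IsAlgClosed k] {T : Type} [CommRing T]
    [Algebra k T] [Algebra.FiniteType k T] [Nontrivial T] : Nonempty (T →ₐ[k] k) := by
  obtain ⟨m, hm⟩ := Ideal.exists_maximal T
  let _ : Field (T ⧸ m) := Ideal.Quotient.field m
  have h1 : Algebra.FiniteType k (T ⧸ m) :=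
    Algebra.FiniteType.of_surjective (Ideal.Quotient.mkₐ k m) (Ideal.Quotient.mkₐ_surjective k m)
  have h2 : Module.Finite k (T ⧸ m) := finite_of_finite_type_of_isJacobsonRing k (T ⧸ m)
  have h3 : Function.Bijective (algebraMap k (T ⧸ m)) :=
    IsAlgClosed.algebraMap_bijective_of_isIntegral
  exact ⟨((AlgEquiv.ofBijective (Algebra.ofId k (T ⧸ m)) h3).symm.toAlgHom).comp
    (Ideal.Quotient.mkₐ k m)⟩

private theorem h51_common_point_domain {k : Type} [Field k] [IsAlgClosed k] {B R₁ R₂ : Type}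
    [CommRing B] [Algebra k B] [CommRing R₁] [Algebra k R₁] [CommRing R₂] [Algebra k R₂]
    [IsDomain R₁] [IsDomain R₂]
    [Algebra.FiniteType k R₁] [Algebra.FiniteType k R₂] (i₁ : B →ₐ[k] R₁) (i₂ : B →ₐ[k] R₂)
    (h₁ : Function.Injective i₁) (h₂ : Function.Injective i₂) :
    ∃ (p₁ : R₁ →ₐ[k] k) (p₂ : R₂ →ₐ[k] k), p₁.comp i₁ = p₂.comp i₂ := by
  let _ : Algebra B R₁ := i₁.toRingHom.toAlgebra
  let _ : Algebra B R₂ := i₂.toRingHom.toAlgebra
  have t1 : IsScalarTower k B R₁ := IsScalarTower.of_algebraMap_eq fun x => (i₁.commutes x).symm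
  have t2 : IsScalarTower k B R₂ := IsScalarTower.of_algebraMap_eq fun x => (i₂.commutes x).symm
  have hn : Nontrivial (R₁ ⊗[B] R₂) :=
    Algebra.TensorProduct.nontrivial_of_algebraMap_injective_of_isDomain B R₁ R₂ h₁ h₂
  have f2 : Algebra.FiniteType B R₂ := Algebra.FiniteType.of_restrictScalars_finiteType k B R₂
  have f3 : Algebra.FiniteType R₁ (R₁ ⊗[B] R₂) := inferInstance
  have f4 : Algebra.FiniteType k (R₁ ⊗[B] R₂) :=
    Algebra.FiniteType.trans (S := R₁) inferInstance f3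
  obtain ⟨p⟩ := h51_exists_point (k := k) (T := R₁ ⊗[B] R₂)
  refine ⟨p.comp Algebra.TensorProduct.includeLeft,
    p.comp ((Algebra.TensorProduct.includeRight : R₂ →ₐ[B] R₁ ⊗[B] R₂).restrictScalars k), ?_⟩
  ext b
  show p (i₁ b ⊗ₜ[B] 1) = p (1 ⊗ₜ[B] i₂ b)
  congr 1
  have e1 : i₁ b = b • (1 : R₁) := by rw [Algebra.smul_def, mul_one]; rfl
  have e2 : i₂ b = b • (1 : R₂) := by rw [Algebra.smul_def, mul_one]; rfl
  rw [e1, e2, TensorProduct.smul_tmul]

private theorem h51_exists_prime {B R : Type} [CommRing B] [IsDomain B] [CommRing R] (i : B →+* R)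
    (h : Function.Injective i) :
    ∃ P : Ideal R, P.IsPrime ∧ Function.Injective ((Ideal.Quotient.mk P).comp i) := by
  have h1 : (⊥ : Ideal B) ∈ minimalPrimes B := by
    rw [IsDomain.minimalPrimes_eq_singleton_bot]
    rfl
  obtain ⟨P, hP, hPc⟩ := Ideal.exists_comap_eq_of_mem_minimalPrimes_of_injective h ⊥ h1
  refine ⟨P, hP, ?_⟩
  rw [RingHom.injective_iff_ker_eq_bot, ← RingHom.comap_ker, Ideal.mk_ker, hPc]

/-- SR-D11 -/
theorem common_point {k : Type} [Field k] [IsAlgClosed k] {B R₁ R₂ : Type} [CommRing B]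
    [IsDomain B] [Algebra k B] [CommRing R₁] [Algebra k R₁] [CommRing R₂] [Algebra k R₂]
    [Algebra.FiniteType k R₁] [Algebra.FiniteType k R₂] (i₁ : B →ₐ[k] R₁) (i₂ : B →ₐ[k] R₂)
    (h₁ : Function.Injective i₁) (h₂ : Function.Injective i₂) :
    ∃ (p₁ : R₁ →ₐ[k] k) (p₂ : R₂ →ₐ[k] k), p₁.comp i₁ = p₂.comp i₂ := by
  obtain ⟨P₁, hP₁, hi₁⟩ := h51_exists_prime i₁.toRingHom h₁
  obtain ⟨P₂, hP₂, hi₂⟩ := h51_exists_prime i₂.toRingHom h₂
  have f1 : Algebra.FiniteType k (R₁ ⧸ P₁) :=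
    Algebra.FiniteType.of_surjective (Ideal.Quotient.mkₐ k P₁) (Ideal.Quotient.mkₐ_surjective k P₁)
  have f2 : Algebra.FiniteType k (R₂ ⧸ P₂) :=
    Algebra.FiniteType.of_surjective (Ideal.Quotient.mkₐ k P₂) (Ideal.Quotient.mkₐ_surjective k P₂)
  obtain ⟨q₁, q₂, hq⟩ := h51_common_point_domain ((Ideal.Quotient.mkₐ k P₁).comp i₁)
    ((Ideal.Quotient.mkₐ k P₂).comp i₂) hi₁ hi₂
  exact ⟨q₁.comp (Ideal.Quotient.mkₐ k P₁), q₂.comp (Ideal.Quotient.mkₐ k P₂), hq⟩

end Pool.Agent.Helper54.SR
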