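import Pool.Agent.Helper54.SR.Defs
import Pool.Agent.Helper33.SR.Hilbert90
import Pool.Agent.Helper46.SR.Crossed
import Pool.Agent.Helper57.SR.ExistsCyclicNorm
import Pool.Agent.Helper87.SR.Roots

/-!
# SR2-C5: central kernels of order `ℓ`
-/

set_option autoImplicit false

namespace Pool.Agent.Helper54.SR

open Finset

private theorem h51_exists_primitiveRoot {k : Type} [Field k] [IsAlgClosed k] {ℓ : ℕ}
    (h : (ℓ : k) ≠ 0) : ∃ ζ : k, IsPrimitiveRoot ζ ℓ := by
  have : NeZero (ℓ : k) := ⟨h⟩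
  exact HasEnoughRootsOfUnity.exists_primitiveRoot k ℓ

/-- SR-C5: a central kernel of order `ℓ` -/
theorem central_step {p : ℕ} [Fact p.Prime] {k E L : Type} [Field k] [IsAlgClosed k] [CharP k p]
    [Field E] [Field L] [Algebra (RatFunc k) E] [FiniteDimensional (RatFunc k) E] [Algebra E L]
    [FiniteDimensional E L] [IsGalois E L] {ℓ : ℕ} (hℓ : ℓ.Prime) (hℓp : ℓ ≠ p) {Γ : Type}
    [Group Γ] [Finite Γ] (hΓ : IsPGroup ℓ Γ) (act : Γ →* (L ≃ₐ[E] L))
    (hact : Function.Surjective act) (hZc : ∀ z, act z = 1 → ∀ g, z * g = g * z)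
    (hZ : Nat.card act.ker = ℓ) :
    ∃ (L' : Type) (_ : Field L') (_ : Algebra E L') (_ : FiniteDimensional E L')
      (_ : IsGalois E L') (j : L →ₐ[E] L') (ρ : (L' ≃ₐ[E] L') →* Γ),
      ∀ σ x, σ (j x) = j (act (ρ σ) x) := by
  classical
  have hℓ0 : 0 < ℓ := hℓ.pos
  have hNZ : NeZero ℓ := ⟨hℓ.ne_zero⟩
  have hpr : Fact ℓ.Prime := ⟨hℓ⟩
  -- constants
  let κ : k →+* E := (algebraMap (RatFunc k) E).comp (algebraMap k (RatFunc k))
  let κL : k →+* L := (algebraMap E L).comp κ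
  have hκL : Function.Injective κL := κL.injective
  have hlk : (ℓ : k) ≠ 0 := by
    rw [Ne, CharP.cast_eq_zero_iff k p ℓ]
    intro h
    rcases (Nat.dvd_prime hℓ).1 h with h1 | h1
    · exact (Fact.out : p.Prime).one_lt.ne' h1
    · exact hℓp h1.symm
  have hlE : (ℓ : E) ≠ 0 := by
    have h1 : (ℓ : E) = κ (ℓ : k) := by simp
    rw [h1]
    exact (map_ne_zero κ).2 hlk
  obtain ⟨ζ0, hζ0⟩ := h51_exists_primitiveRoot hlk
  -- the kernel
  have hcard : Nat.card act.ker = Nat.card (rootsOfUnity ℓ k) := by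
    rw [hZ, hζ0.card_rootsOfUnity]
  have hfin : Finite (rootsOfUnity ℓ k) := Nat.finite_of_card_ne_zero (by
    rw [hζ0.card_rootsOfUnity]; exact hℓ.ne_zero)
  have hcyc : IsCyclic act.ker := isCyclic_of_prime_card hZ
  let χ : act.ker ≃* rootsOfUnity ℓ k := mulEquivOfCyclicCardEq hcard
  let ζ : Γ → L := fun g => if h : g ∈ act.ker then κL (((χ ⟨g, h⟩ : rootsOfUnity ℓ k) : kˣ) : k)
    else 1
  have hζval : ∀ (g : Γ) (h : g ∈ act.ker), ζ g = κL (((χ ⟨g, h⟩ : rootsOfUnity ℓ k) : kˣ) : k) :=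
    fun g h => dif_pos h
  have hκfix : ∀ (g : Γ) (c : k), act g (κL c) = κL c := fun g c => (act g).commutes (κ c)
  -- the action by ring automorphisms
  let act' : Γ →* (L ≃+* L) :=
    { toFun := fun g => (act g).toRingEquiv
      map_one' := by rw [map_one]; rfl
      map_mul' := fun g h => by rw [map_mul]; rfl }
  have hact' : ∀ g x, act' g x = act g x := fun _ _ => rfl
  have hker' : ∀ g, act' g = 1 ↔ g ∈ act.ker := by
    intro g
    rw [MonoidHom.mem_ker]
    constructor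
    · intro h
      ext x
      exact DFunLike.congr_fun h x
    · intro h
      ext x
      exact DFunLike.congr_fun h x
  obtain ⟨b, hb0, hb, hbZ⟩ := exists_crossed hℓ hΓ act' act.ker
    (fun z hz g => hZc z hz g) hker'
    (by
      intro N τ hZN hτ hτℓ hτN a ha haτ
      exact exists_cyclic_norm (k := k) act hℓ N (fun g hg => hZN hg) τ hτ hτℓ hτN a ha haτ)
    ζ
    (by
      intro g z hz
      rw [hζval z hz]
      exact hκfix g _)
    (by
      intro z hz
      rw [hζval z hz]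
      exact (map_ne_zero κL).2 (Units.ne_zero _))
    (by
      intro z hz w hw
      rw [hζval z hz, hζval w hw, hζval (z * w) (mul_mem hz hw), ← map_mul]
      have h1 : (⟨z * w, mul_mem hz hw⟩ : act.ker) = ⟨z, hz⟩ * ⟨w, hw⟩ := rfl
      rw [h1, map_mul]
      rfl)
  have hζpow : ∀ z ∈ act.ker, ζ z ^ ℓ = 1 := by
    intro z hz
    rw [hζval z hz, ← map_pow]
    have h1 := (mem_rootsOfUnity ℓ _).1 (χ ⟨z, hz⟩).2
    have h2 := congrArg (fun u : kˣ => (u : k)) h1
    simp only [Units.val_pow_eq_pow_val, Units.val_one] at h2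
    rw [h2, map_one]
  obtain ⟨f, hf0, hf⟩ := hilbert90 act' (fun g => b g ^ ℓ) (fun g => pow_ne_zero _ (hb0 g))
    (fun g h => by
      rw [hb g h, mul_pow, map_pow])
    (fun g hg => by
      have h1 := (hker' g).1 hg
      rw [hbZ g h1, hζpow g h1])
  obtain ⟨L', i1, i2, i3, i4, j, hr⟩ := exists_roots (E := E) (L := L) (ℓ := ℓ) hlE {f}
  obtain ⟨r, hr⟩ := hr f (Finset.mem_singleton_self f)
  have hjinj : Function.Injective j := j.toRingHom.injective
  have hr0 : r ≠ 0 := by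
    rintro rfl
    rw [zero_pow hℓ.ne_zero] at hr
    exact hf0 (hjinj (by rw [map_zero]; exact hr.symm))
  -- restriction to `L`
  have hres : ∀ σ : L' ≃ₐ[E] L', ∃ g : Γ, ∀ x, σ (j x) = j (act g x) := by
    intro σ
    let _ : Algebra L L' := j.toRingHom.toAlgebra
    have : IsScalarTower E L L' := IsScalarTower.of_algebraMap_eq fun x => (j.commutes x).symm
    obtain ⟨g, hg⟩ := hact (σ.restrictNormal L)
    refine ⟨g, fun x => ?_⟩
    rw [hg]
    exact (σ.restrictNormal_commutes L x).symm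
  -- the lift
  have hκj : ∀ c, j (κL c) = algebraMap E L' (κ c) := fun c => j.commutes (κ c)
  have hex : ∀ σ : L' ≃ₐ[E] L', ∃ g : Γ, (∀ x, σ (j x) = j (act g x)) ∧ σ r = j (b g) * r := by
    intro σ
    obtain ⟨g, hg⟩ := hres σ
    have hbr : j (b g) * r ≠ 0 := mul_ne_zero ((map_ne_zero j).2 (hb0 g)) hr0
    have h1 : (σ r / (j (b g) * r)) ^ ℓ = 1 := by
      rw [div_pow, div_eq_one_iff_eq (pow_ne_zero _ hbr), ← map_pow, hr, hg f, mul_pow, hr,
        ← map_pow, ← map_mul]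
      exact congrArg j (hf g)
    have hζ' : IsPrimitiveRoot (algebraMap E L' (κ ζ0)) ℓ :=
      (hζ0.map_of_injective κ.injective).map_of_injective (algebraMap E L').injective
    obtain ⟨i, -, hi⟩ := hζ'.eq_pow_of_pow_eq_one h1
    have hunit : IsUnit ζ0 := hζ0.isUnit hℓ.ne_zero
    let u : kˣ := hunit.unit
    have hu : (u : k) = ζ0 := hunit.unit_spec
    have hui : u ^ i ∈ rootsOfUnity ℓ k := by
      rw [mem_rootsOfUnity, ← pow_mul, mul_comm, pow_mul]
      have : u ^ ℓ = 1 := by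
        ext
        rw [Units.val_pow_eq_pow_val, hu, hζ0.pow_eq_one, Units.val_one]
      rw [this, one_pow]
    let z : act.ker := χ.symm ⟨u ^ i, hui⟩
    have hζz : ζ z.1 = κL (ζ0 ^ i) := by
      rw [hζval z.1 z.2]
      have : χ ⟨z.1, z.2⟩ = ⟨u ^ i, hui⟩ := χ.apply_symm_apply _
      rw [this]
      simp only [Units.val_pow_eq_pow_val, hu]
    have hz1 : act z.1 = 1 := z.2
    refine ⟨z.1 * g, fun x => ?_, ?_⟩
    · rw [map_mul, hz1, one_mul]
      exact hg x
    · have h2 : b (z.1 * g) = κL (ζ0 ^ i) * b g := by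
        rw [hb, hbZ z.1 z.2, hζz]
        have : act' z.1 = 1 := (hker' z.1).2 z.2
        rw [this]
        rfl
      rw [h2, map_mul, hκj, mul_assoc, map_pow, map_pow, hi, div_mul_cancel₀ _ hbr]
  have huniq : ∀ (σ : L' ≃ₐ[E] L') (g h : Γ), ((∀ x, σ (j x) = j (act g x)) ∧ σ r = j (b g) * r) →
      ((∀ x, σ (j x) = j (act h x)) ∧ σ r = j (b h) * r) → g = h := by
    rintro σ g h ⟨hg1, hg2⟩ ⟨hh1, hh2⟩
    have h1 : act g = act h := by
      ext x
      exact hjinj ((hg1 x).symm.trans (hh1 x))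
    have h2 : b g = b h := hjinj (mul_right_cancel₀ hr0 (hg2.symm.trans hh2))
    have hz : g * h⁻¹ ∈ act.ker := by
      rw [MonoidHom.mem_ker, map_mul, map_inv, h1, mul_inv_cancel]
    have h3 : g = (g * h⁻¹) * h := by group
    have h4 : b g = ζ (g * h⁻¹) * b h := by
      conv_lhs => rw [h3]
      rw [hb, hbZ _ hz, (hker' _).2 hz]
      rfl
    have h5 : ζ (g * h⁻¹) = 1 := by
      rw [h2] at h4
      exact (mul_eq_right₀ (hb0 h)).1 h4.symm
    rw [hζval _ hz, ← map_one κL] at h5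
    have h6 := hκL h5
    have h7 : χ ⟨g * h⁻¹, hz⟩ = 1 := by
      apply Subtype.ext
      apply Units.ext
      exact h6
    have h8 : (⟨g * h⁻¹, hz⟩ : act.ker) = 1 := by
      rw [← map_one χ] at h7
      exact χ.injective h7
    have h9 : g * h⁻¹ = 1 := congrArg Subtype.val h8
    exact mul_inv_eq_one.1 h9
  choose ρ hρ1 hρ2 using hex
  refine ⟨L', i1, i2, i3, i4, j, MonoidHom.mk' ρ fun σ τ => ?_, fun σ x => hρ1 σ x⟩
  refine huniq (σ * τ) _ _ ⟨hρ1 _, hρ2 _⟩ ⟨fun x => ?_, ?_⟩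
  · rw [AlgEquiv.mul_apply, hρ1 τ, hρ1 σ, map_mul]
    rfl
  · rw [AlgEquiv.mul_apply, hρ2 τ, map_mul, hρ1 σ, hρ2 σ, hb, map_mul]
    show j (act (ρ σ) (b (ρ τ))) * (j (b (ρ σ)) * r) = j (b (ρ σ)) * j (act (ρ σ) (b (ρ τ))) * r
    ring

end Pool.Agent.Helper54.SR
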